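import Mathlib
import Pool.Agent.H68R2.BP.Props2

open scoped ComplexOrder InnerProductSpace ComplexConjugate Topology
open Finset Filter

noncomputable section

set_option linter.unusedSectionVars false

namespace H68R2.BP

open H759R2.Kad H744R2.KZ

namespace TComAux

section
variable {H : Type} [NormedAddCommGroup H] [InnerProductSpace ℂ H] [CompleteSpace H]

abbrev E2 (H : Type) : Type := WithLp 2 (H × H)

def i1 : H →L[ℂ] E2 H :=
  ((WithLp.prodContinuousLinearEquiv 2 ℂ H H).symm : (H × H) →L[ℂ] E2 H) ∘L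
    ContinuousLinearMap.inl ℂ H H

def i2 : H →L[ℂ] E2 H :=
  ((WithLp.prodContinuousLinearEquiv 2 ℂ H H).symm : (H × H) →L[ℂ] E2 H) ∘L
    ContinuousLinearMap.inr ℂ H H

def p1 : E2 H →L[ℂ] H := WithLp.fstL 2 ℂ H H
def p2 : E2 H →L[ℂ] H := WithLp.sndL 2 ℂ H H

lemma i1_fst (x : H) : (i1 x : E2 H).fst = x := rfl
lemma i1_snd (x : H) : (i1 x : E2 H).snd = 0 := rfl
lemma i2_fst (x : H) : (i2 x : E2 H).fst = 0 := rfl
lemma i2_snd (x : H) : (i2 x : E2 H).snd = x := rfl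
lemma p1_apply (x : E2 H) : p1 x = x.fst := rfl
lemma p2_apply (x : E2 H) : p2 x = x.snd := rfl

lemma decomp (x : E2 H) : x = i1 (p1 x) + i2 (p2 x) := by
  apply WithLp.ofLp_injective 2
  refine Prod.ext ?_ ?_
  · show x.fst = (i1 (p1 x) : E2 H).fst + (i2 (p2 x) : E2 H).fst
    rw [i1_fst, i2_fst, p1_apply, add_zero]
  · show x.snd = (i1 (p1 x) : E2 H).snd + (i2 (p2 x) : E2 H).snd
    rw [i1_snd, i2_snd, p2_apply, zero_add]

lemma inner_i1 (x : H) (y : E2 H) : ⟪i1 x, y⟫_ℂ = ⟪x, p1 y⟫_ℂ := by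
  rw [WithLp.prod_inner_apply]
  show ⟪(i1 x : E2 H).fst, y.fst⟫_ℂ + ⟪(i1 x : E2 H).snd, y.snd⟫_ℂ = _
  rw [i1_fst, i1_snd, inner_zero_left, add_zero, p1_apply]

lemma inner_i2 (x : H) (y : E2 H) : ⟪i2 x, y⟫_ℂ = ⟪x, p2 y⟫_ℂ := by
  rw [WithLp.prod_inner_apply]
  show ⟪(i2 x : E2 H).fst, y.fst⟫_ℂ + ⟪(i2 x : E2 H).snd, y.snd⟫_ℂ = _
  rw [i2_fst, i2_snd, inner_zero_left, zero_add, p2_apply]

lemma inner_i1' (x : H) (y : E2 H) : ⟪y, i1 x⟫_ℂ = ⟪p1 y, x⟫_ℂ := by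
  rw [← inner_conj_symm, inner_i1, inner_conj_symm]

lemma inner_i2' (x : H) (y : E2 H) : ⟪y, i2 x⟫_ℂ = ⟪p2 y, x⟫_ℂ := by
  rw [← inner_conj_symm, inner_i2, inner_conj_symm]

lemma norm_i1 (x : H) : ‖(i1 x : E2 H)‖ = ‖x‖ := by
  rw [@norm_eq_sqrt_re_inner ℂ, @norm_eq_sqrt_re_inner ℂ, inner_i1]
  rfl

lemma norm_i2 (x : H) : ‖(i2 x : E2 H)‖ = ‖x‖ := by
  rw [@norm_eq_sqrt_re_inner ℂ, @norm_eq_sqrt_re_inner ℂ, inner_i2]
  rfl

lemma norm_p1 (x : E2 H) : ‖p1 x‖ ≤ ‖x‖ := by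
  have h1 : ‖x‖ ^ 2 = ‖x.fst‖ ^ 2 + ‖x.snd‖ ^ 2 := WithLp.prod_norm_sq_eq_of_L2 x
  rw [p1_apply]
  exact le_of_sq_le_sq (by nlinarith [sq_nonneg ‖x.snd‖]) (norm_nonneg _)

lemma norm_p2 (x : E2 H) : ‖p2 x‖ ≤ ‖x‖ := by
  have h1 : ‖x‖ ^ 2 = ‖x.fst‖ ^ 2 + ‖x.snd‖ ^ 2 := WithLp.prod_norm_sq_eq_of_L2 x
  rw [p2_apply]
  exact le_of_sq_le_sq (by nlinarith [sq_nonneg ‖x.fst‖]) (norm_nonneg _)

/-- diagonal operator -/
def Dg (a : H →L[ℂ] H) : E2 H →L[ℂ] E2 H := i1 ∘L a ∘L p1 + i2 ∘L a ∘L p2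

lemma Dg_apply (a : H →L[ℂ] H) (x : E2 H) : Dg a x = i1 (a (p1 x)) + i2 (a (p2 x)) := rfl

lemma p1_add_i (x y : H) : p1 (i1 x + i2 y : E2 H) = x := by
  rw [p1_apply]
  show (i1 x : E2 H).fst + (i2 y : E2 H).fst = x
  rw [i1_fst, i2_fst, add_zero]

lemma p2_add_i (x y : H) : p2 (i1 x + i2 y : E2 H) = y := by
  rw [p2_apply]
  show (i1 x : E2 H).snd + (i2 y : E2 H).snd = y
  rw [i1_snd, i2_snd, zero_add]

lemma Dg_adj (a : H →L[ℂ] H) (x y : E2 H) : ⟪Dg (star a) x, y⟫_ℂ = ⟪x, Dg a y⟫_ℂ := by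
  rw [Dg_apply, Dg_apply, inner_add_left, inner_add_right, inner_i1, inner_i2, inner_i1', inner_i2',
    ContinuousLinearMap.star_eq_adjoint, ContinuousLinearMap.adjoint_inner_left,
    ContinuousLinearMap.adjoint_inner_left]

/-- projection onto an invariant subspace commutes -/
lemma proj_comm (G : Submodule ℂ (E2 H)) [G.HasOrthogonalProjection] (a : H →L[ℂ] H)
    (h1 : ∀ x ∈ G, Dg a x ∈ G) (h2 : ∀ x ∈ G, Dg (star a) x ∈ G) (x : E2 H) :
    G.starProjection (Dg a x) = Dg a (G.starProjection x) := by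
  refine (Submodule.eq_starProjection_of_mem_of_inner_eq_zero (K := G) ?_ ?_)
  · exact h1 _ (Submodule.starProjection_apply_mem G x)
  · intro w hw
    rw [← map_sub, ← inner_conj_symm, ← Dg_adj, inner_conj_symm]
    exact Submodule.starProjection_inner_eq_zero x _ (h2 w hw)

end

section
variable {H : Type} [NormedAddCommGroup H] [InnerProductSpace ℂ H] [CompleteSpace H]

/-- the submodule `{(a Ω, a η)}` -/
def G0 (M : Submodule ℂ (H →L[ℂ] H)) (Ω η : H) : Submodule ℂ (E2 H) where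
  carrier := {x | ∃ a ∈ M, x = i1 (a Ω) + i2 (a η)}
  add_mem' := by
    rintro _ _ ⟨a, ha, rfl⟩ ⟨b, hb, rfl⟩
    refine ⟨a + b, M.add_mem ha hb, ?_⟩
    simp only [ContinuousLinearMap.add_apply, map_add]
    abel
  zero_mem' := ⟨0, M.zero_mem, by simp⟩
  smul_mem' := by
    rintro c _ ⟨a, ha, rfl⟩
    refine ⟨c • a, M.smul_mem c ha, ?_⟩
    simp only [ContinuousLinearMap.smul_apply, map_smul, smul_add]

/-- the core estimate -/
lemma core (M : Submodule ℂ (H →L[ℂ] H)) (h1 : (1 : H →L[ℂ] H) ∈ M)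
    (hmul : ∀ a ∈ M, ∀ b ∈ M, a * b ∈ M) (hstar : ∀ a ∈ M, star a ∈ M) (Ω ξ : H)
    (hξ : ∀ a ∈ M, ⟪Ω, a ξ⟫_ℂ = ⟪ξ, a Ω⟫_ℂ) (a0 : H →L[ℂ] H) (ha0 : a0 ∈ M) (ε : ℝ) (hε : 0 < ε) :
    ∃ b : H →L[ℂ] H, star b = b ∧ (∀ a ∈ M, b * a = a * b) ∧
      ‖b Ω - ξ‖ ≤ 2 * ‖ξ - a0 Ω‖ + ε * (‖a0‖ * ‖ξ‖) := by
  set G : Submodule ℂ (E2 H) := (G0 M Ω ((ε : ℂ) • ξ)).topologicalClosure with hG
  have hGc : IsClosed (G : Set (E2 H)) := Submodule.isClosed_topologicalClosure _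
  haveI : CompleteSpace G := hGc.completeSpace_coe
  have hsub : G0 M Ω ((ε : ℂ) • ξ) ≤ G := Submodule.le_topologicalClosure _
  have hinv : ∀ a ∈ M, ∀ x ∈ G, Dg a x ∈ G := by
    intro a ha x hx
    have hmaps : Set.MapsTo (Dg a) (G0 M Ω ((ε : ℂ) • ξ) : Set (E2 H))
        (G0 M Ω ((ε : ℂ) • ξ) : Set (E2 H)) := by
      rintro _ ⟨b, hb, rfl⟩
      refine ⟨a * b, hmul a ha b hb, ?_⟩
      rw [Dg_apply, p1_add_i, p2_add_i]
      rfl
    exact hmaps.closure (Dg a).continuous hx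
  have hcomm : ∀ a ∈ M, ∀ x, G.starProjection (Dg a x) = Dg a (G.starProjection x) :=
    fun a ha x => proj_comm G a (hinv a ha) (hinv _ (hstar a ha)) x
  set P := G.starProjection with hP
  set q11 : H →L[ℂ] H := p1 ∘L P ∘L i1 with hq11
  set q12 : H →L[ℂ] H := p1 ∘L P ∘L i2 with hq12
  set q21 : H →L[ℂ] H := p2 ∘L P ∘L i1 with hq21
  set q22 : H →L[ℂ] H := p2 ∘L P ∘L i2 with hq22
  have e11 : ∀ v, q11 v = p1 (P (i1 v)) := fun v => rfl
  have e12 : ∀ v, q12 v = p1 (P (i2 v)) := fun v => rfl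
  have e21 : ∀ v, q21 v = p2 (P (i1 v)) := fun v => rfl
  have e22 : ∀ v, q22 v = p2 (P (i2 v)) := fun v => rfl
  have hPn : ∀ x, ‖P x‖ ≤ ‖x‖ := fun x => Submodule.norm_starProjection_apply_le G x
  have n11 : ∀ v, ‖q11 v‖ ≤ ‖v‖ := fun v =>
    (norm_p1 _).trans ((hPn _).trans (norm_i1 v).le)
  have n12 : ∀ v, ‖q12 v‖ ≤ ‖v‖ := fun v =>
    (norm_p1 _).trans ((hPn _).trans (norm_i2 v).le)
  have n21 : ∀ v, ‖q21 v‖ ≤ ‖v‖ := fun v =>
    (norm_p2 _).trans ((hPn _).trans (norm_i1 v).le)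
  have n22 : ∀ v, ‖q22 v‖ ≤ ‖v‖ := fun v =>
    (norm_p2 _).trans ((hPn _).trans (norm_i2 v).le)
  -- commutation
  have Dg1 : ∀ (a : H →L[ℂ] H) v, Dg a (i1 v : E2 H) = i1 (a v) := by
    intro a v
    have := p1_add_i v (0 : H)
    have h2 := p2_add_i v (0 : H)
    rw [map_zero, add_zero] at this h2
    rw [Dg_apply, this, h2, map_zero, map_zero, add_zero]
  have Dg2 : ∀ (a : H →L[ℂ] H) v, Dg a (i2 v : E2 H) = i2 (a v) := by
    intro a v
    have := p1_add_i (0 : H) v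
    have h2 := p2_add_i (0 : H) v
    rw [map_zero, zero_add] at this h2
    rw [Dg_apply, this, h2, map_zero, map_zero, zero_add]
  have p1Dg : ∀ (a : H →L[ℂ] H) x, p1 (Dg a x : E2 H) = a (p1 x) := by
    intro a x; rw [Dg_apply, p1_add_i]
  have p2Dg : ∀ (a : H →L[ℂ] H) x, p2 (Dg a x : E2 H) = a (p2 x) := by
    intro a x; rw [Dg_apply, p2_add_i]
  have c11 : ∀ a ∈ M, ∀ v, q11 (a v) = a (q11 v) := by
    intro a ha v; rw [e11, ← Dg1, hcomm a ha, p1Dg, ← e11]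
  have c12 : ∀ a ∈ M, ∀ v, q12 (a v) = a (q12 v) := by
    intro a ha v; rw [e12, ← Dg2, hcomm a ha, p1Dg, ← e12]
  have c21 : ∀ a ∈ M, ∀ v, q21 (a v) = a (q21 v) := by
    intro a ha v; rw [e21, ← Dg1, hcomm a ha, p2Dg, ← e21]
  have c22 : ∀ a ∈ M, ∀ v, q22 (a v) = a (q22 v) := by
    intro a ha v; rw [e22, ← Dg2, hcomm a ha, p2Dg, ← e22]
  -- adjoint
  have hPs : ∀ x y, ⟪P x, y⟫_ℂ = ⟪x, P y⟫_ℂ := fun x y =>
    Submodule.inner_starProjection_left_eq_right G x y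
  have s12 : ∀ v w, ⟪q12 v, w⟫_ℂ = ⟪v, q21 w⟫_ℂ := by
    intro v w
    rw [e12, e21, ← inner_i1', hPs, inner_i2]
  have s21 : ∀ v w, ⟪q21 v, w⟫_ℂ = ⟪v, q12 w⟫_ℂ := by
    intro v w
    rw [e12, e21, ← inner_i2', hPs, inner_i1]
  -- values
  have hmem : i1 Ω + i2 ((ε : ℂ) • ξ) ∈ G := hsub ⟨1, h1, rfl⟩
  have hfix : P (i1 Ω + i2 ((ε : ℂ) • ξ)) = i1 Ω + i2 ((ε : ℂ) • ξ) :=
    Submodule.starProjection_eq_self_iff.mpr hmem
  have v1 : q11 Ω + (ε : ℂ) • q12 ξ = Ω := by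
    have := congrArg p1 hfix
    rw [p1_add_i, map_add, map_add, map_smul, map_smul, map_smul] at this
    exact this
  have v2 : q21 Ω + (ε : ℂ) • q22 ξ = (ε : ℂ) • ξ := by
    have := congrArg p2 hfix
    rw [p2_add_i, map_add, map_add, map_smul, map_smul, map_smul] at this
    exact this
  have hort : P (i1 (-((ε : ℂ) • ξ)) + i2 Ω) = 0 := by
    rw [hP, Submodule.starProjection_apply_eq_zero_iff, Submodule.mem_orthogonal]
    intro u hu
    have hcl : G ≤ (LinearMap.ker ((innerSL ℂ (i1 (-((ε : ℂ) • ξ)) + i2 Ω : E2 H)) :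
        E2 H →ₗ[ℂ] ℂ)) := by
      refine Submodule.topologicalClosure_minimal _ ?_ ?_
      · rintro _ ⟨a, ha, rfl⟩
        rw [LinearMap.mem_ker]
        show ⟪i1 (-((ε : ℂ) • ξ)) + i2 Ω, i1 (a Ω) + i2 (a ((ε : ℂ) • ξ))⟫_ℂ = 0
        rw [inner_add_left, inner_i1, inner_i2, p1_add_i, p2_add_i, inner_neg_left,
          inner_smul_left, map_smul, inner_smul_right, hξ a ha, Complex.conj_ofReal]
        ring
      · exact (innerSL ℂ (i1 (-((ε : ℂ) • ξ)) + i2 Ω : E2 H)).isClosed_ker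
    have := hcl hu
    rw [LinearMap.mem_ker] at this
    rw [← inner_conj_symm]
    have h3 : ⟪i1 (-((ε : ℂ) • ξ)) + i2 Ω, u⟫_ℂ = 0 := this
    rw [h3, map_zero]
  have v3 : q12 Ω = (ε : ℂ) • q11 ξ := by
    have := congrArg p1 hort
    rw [map_add, map_add, map_neg, map_neg, map_neg, map_smul, map_smul, map_smul, map_zero] at this
    have h3 : -((ε : ℂ) • q11 ξ) + q12 Ω = 0 := this
    rw [neg_add_eq_zero] at h3
    exact h3.symm
  have v4 : q22 Ω = (ε : ℂ) • q21 ξ := by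
    have := congrArg p2 hort
    rw [map_add, map_add, map_neg, map_neg, map_neg, map_smul, map_smul, map_smul, map_zero] at this
    have h3 : -((ε : ℂ) • q21 ξ) + q22 Ω = 0 := this
    rw [neg_add_eq_zero] at h3
    exact h3.symm
  have hεc : (ε : ℂ) ≠ 0 := by exact_mod_cast hε.ne'
  set b : H →L[ℂ] H := (((1 / (2 * ε) : ℝ) : ℂ)) • (q12 + q21) with hb
  have hbΩ : b Ω - ξ = (1 / 2 : ℂ) • ((q11 ξ - ξ) - q22 ξ) := by
    have h3 : b Ω = (((1 / (2 * ε) : ℝ) : ℂ)) • (q12 Ω + q21 Ω) := rfl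
    have h4 : q21 Ω = (ε : ℂ) • ξ - (ε : ℂ) • q22 ξ := by rw [← v2]; abel
    rw [h3, v3, h4, ← smul_sub, ← smul_add, smul_smul]
    have h5 : (((1 / (2 * ε) : ℝ) : ℂ)) * (ε : ℂ) = 1 / 2 := by
      push_cast; field_simp
    rw [h5]
    module
  refine ⟨b, ?_, ?_, ?_⟩
  · rw [ContinuousLinearMap.star_eq_adjoint]
    symm
    rw [ContinuousLinearMap.eq_adjoint_iff]
    intro x y
    show ⟪(((1 / (2 * ε) : ℝ) : ℂ)) • (q12 x + q21 x), y⟫_ℂ =
      ⟪x, (((1 / (2 * ε) : ℝ) : ℂ)) • (q12 y + q21 y)⟫_ℂ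
    rw [inner_smul_left, inner_smul_right, Complex.conj_ofReal, inner_add_left, inner_add_right,
      s12, s21, add_comm ⟪x, q21 y⟫_ℂ]
  · intro a ha
    ext v
    show (((1 / (2 * ε) : ℝ) : ℂ)) • (q12 (a v) + q21 (a v)) =
      a ((((1 / (2 * ε) : ℝ) : ℂ)) • (q12 v + q21 v))
    rw [map_smul, map_add, c12 a ha, c21 a ha]
  · rw [hbΩ, norm_smul]
    have hhalf : ‖(1 / 2 : ℂ)‖ = 1 / 2 := by norm_num
    rw [hhalf]
    have k1 : ‖q22 ξ‖ ≤ ‖ξ - a0 Ω‖ + ε * (‖a0‖ * ‖ξ‖) := by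
      have : q22 ξ = q22 (ξ - a0 Ω) + a0 (q22 Ω) := by
        rw [map_sub, c22 a0 ha0]; abel
      rw [this]
      refine (norm_add_le _ _).trans (add_le_add (n22 _) ?_)
      rw [v4, map_smul, norm_smul, Complex.norm_real, Real.norm_eq_abs, abs_of_pos hε]
      refine mul_le_mul_of_nonneg_left ?_ hε.le
      exact (a0.le_opNorm _).trans (mul_le_mul_of_nonneg_left (n21 _) (norm_nonneg _))
    have k2 : ‖q11 ξ - ξ‖ ≤ 2 * ‖ξ - a0 Ω‖ + ε * (‖a0‖ * ‖ξ‖) := by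
      have : q11 ξ - ξ = (q11 (ξ - a0 Ω) - (ξ - a0 Ω)) + a0 (q11 Ω - Ω) := by
        rw [map_sub, c11 a0 ha0, map_sub]; abel
      rw [this]
      refine (norm_add_le _ _).trans (add_le_add ?_ ?_)
      · refine (norm_sub_le _ _).trans ?_
        have := n11 (ξ - a0 Ω)
        linarith
      · have h6 : q11 Ω - Ω = -((ε : ℂ) • q12 ξ) := by
          nth_rewrite 2 [← v1]; abel
        rw [h6, map_neg, norm_neg, map_smul, norm_smul, Complex.norm_real, Real.norm_eq_abs,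
          abs_of_pos hε]
        refine mul_le_mul_of_nonneg_left ?_ hε.le
        exact (a0.le_opNorm _).trans (mul_le_mul_of_nonneg_left (n12 _) (norm_nonneg _))
    have k3 := norm_sub_le (q11 ξ - ξ) (q22 ξ)
    have k4 := norm_nonneg (ξ - a0 Ω)
    nlinarith

end
end TComAux

open TComAux in
theorem prove_T_com : T_com := by
  intro H _ _ _ M N Ω hCS
  obtain ⟨cN, cM, stM, cyc, cyc', sep, sep'⟩ := hCS
  have memN : ∀ b, b ∈ N ↔ ∀ a ∈ M, b * a = a * b := by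
    intro b; constructor
    · intro h; rw [cN] at h; exact h
    · intro h; rw [cN]; exact h
  have memM : ∀ b, b ∈ M ↔ ∀ a ∈ N, b * a = a * b := by
    intro b; constructor
    · intro h; rw [cM] at h; exact h
    · intro h; rw [cM]; exact h
  -- M as a submodule
  let MS : Submodule ℂ (H →L[ℂ] H) :=
    { carrier := M
      add_mem' := by
        intro a b ha hb
        rw [memM] at *
        intro c hc
        rw [add_mul, mul_add, ha c hc, hb c hc]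
      zero_mem' := by
        rw [memM]; intro c _; simp
      smul_mem' := by
        intro k a ha
        rw [memM] at *
        intro c hc
        rw [smul_mul_assoc, mul_smul_comm, ha c hc] }
  have hMS : ∀ a, a ∈ MS ↔ a ∈ M := fun a => Iff.rfl
  have h1 : (1 : H →L[ℂ] H) ∈ MS := by
    rw [hMS, memM]; intro c _; simp
  have hmul : ∀ a ∈ MS, ∀ b ∈ MS, a * b ∈ MS := by
    intro a ha b hb
    rw [hMS, memM] at *
    intro c hc
    rw [mul_assoc, hb c hc, ← mul_assoc, ha c hc, mul_assoc]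
  have hstar : ∀ a ∈ MS, star a ∈ MS := fun a ha => stM a ha
  have sadj : ∀ (a : H →L[ℂ] H), star a = a → ∀ x y, ⟪a x, y⟫_ℂ = ⟪x, a y⟫_ℂ := by
    intro a ha x y
    conv_lhs => rw [← ha]
    rw [ContinuousLinearMap.star_eq_adjoint, ContinuousLinearMap.adjoint_inner_left]
  ext ξ
  constructor
  · intro hx y hy
    -- closed condition
    have hA : ∀ a ∈ M, star a = a → ∀ b ∈ N, star b = b → (⟪a Ω, b Ω⟫_ℂ).im = 0 := by
      intro a ha hsa b hb hsb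
      have h2 : ⟪a Ω, b Ω⟫_ℂ = ⟪b Ω, a Ω⟫_ℂ := by
        rw [sadj a hsa, sadj b hsb]
        have h3 := (memN b).1 hb a ha
        have h4 : a (b Ω) = b (a Ω) := by
          have := congrArg (fun f : H →L[ℂ] H => f Ω) h3
          exact this.symm
        rw [h4]
      have h5 : conj ⟪a Ω, b Ω⟫_ℂ = ⟪a Ω, b Ω⟫_ℂ := by
        rw [inner_conj_symm]; exact h2.symm
      exact Complex.conj_eq_iff_im.mp h5
    have hB : ∀ a ∈ M, star a = a → (⟪a Ω, ξ⟫_ℂ).im = 0 := by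
      intro a ha hsa
      have hcl : IsClosed {x : H | (⟪a Ω, x⟫_ℂ).im = 0} :=
        isClosed_eq (Complex.continuous_im.comp (continuous_const.inner continuous_id))
          continuous_const
      have hsub : {x : H | ∃ b ∈ N, star b = b ∧ b Ω = x} ⊆ {x : H | (⟪a Ω, x⟫_ℂ).im = 0} := by
        rintro _ ⟨b, hb, hsb, rfl⟩
        exact hA a ha hsa b hb hsb
      exact closure_minimal hsub hcl hx
    have hcl : IsClosed {y : H | (⟪y, ξ⟫_ℂ).im = 0} :=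
      isClosed_eq (Complex.continuous_im.comp (continuous_id.inner continuous_const))
        continuous_const
    have hsub : {x : H | ∃ b ∈ M, star b = b ∧ b Ω = x} ⊆ {y : H | (⟪y, ξ⟫_ℂ).im = 0} := by
      rintro _ ⟨b, hb, hsb, rfl⟩
      exact hB b hb hsb
    exact closure_minimal hsub hcl hy
  · intro hξ
    have hξ0 : ∀ y ∈ KS M Ω, (⟪y, ξ⟫_ℂ).im = 0 := hξ
    -- the linear relation
    have hlin : ∀ a ∈ MS, ⟪Ω, a ξ⟫_ℂ = ⟪ξ, a Ω⟫_ℂ := by
      have hsa : ∀ a ∈ MS, star a = a → ⟪Ω, a ξ⟫_ℂ = ⟪ξ, a Ω⟫_ℂ := by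
        intro a ha hs
        have h2 := hξ0 (a Ω) (subset_closure ⟨a, ha, hs, rfl⟩)
        rw [← sadj a hs, ← inner_conj_symm ξ (a Ω)]
        exact (Complex.conj_eq_iff_im.mpr h2).symm
      intro a ha
      have hr : star (a + star a) = a + star a := by rw [star_add, star_star, add_comm]
      have hi : star (Complex.I • (a - star a)) = Complex.I • (a - star a) := by
        rw [star_smul, star_sub, star_star, Complex.star_def, Complex.conj_I]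
        rw [neg_smul, ← smul_neg, neg_sub]
      have e1 := hsa (a + star a) (MS.add_mem ha (hstar a ha)) hr
      have e2 := hsa (Complex.I • (a - star a))
        (MS.smul_mem _ (MS.sub_mem ha (hstar a ha))) hi
      simp only [ContinuousLinearMap.add_apply, ContinuousLinearMap.sub_apply,
        ContinuousLinearMap.smul_apply, inner_add_right, inner_sub_right, inner_smul_right] at e1 e2
      have e3 := mul_left_cancel₀ Complex.I_ne_zero e2
      linear_combination (1 / 2 : ℂ) * e1 + (1 / 2 : ℂ) * e3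
    -- density
    let S : Submodule ℂ H := MS.map
      ((ContinuousLinearMap.apply ℂ H Ω : (H →L[ℂ] H) →L[ℂ] H) : (H →L[ℂ] H) →ₗ[ℂ] H)
    have hS : S.topologicalClosure = ⊤ := by
      rw [Submodule.topologicalClosure_eq_top_iff, Submodule.eq_bot_iff]
      intro x hx
      apply cyc
      intro a ha
      exact (Submodule.mem_orthogonal S x).1 hx _ ⟨a, ha, rfl⟩
    have hdense : ∀ δ > 0, ∃ a ∈ MS, ‖ξ - a Ω‖ < δ := by
      intro δ hδ
      have : ξ ∈ closure (S : Set H) := by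
        have h2 : ξ ∈ S.topologicalClosure := by rw [hS]; trivial
        exact h2
      obtain ⟨_, ⟨a, ha, rfl⟩, hd⟩ := Metric.mem_closure_iff.1 this δ hδ
      refine ⟨a, ha, ?_⟩
      rw [← dist_eq_norm]; exact hd
    show ξ ∈ closure {x | ∃ a ∈ N, star a = a ∧ a Ω = x}
    rw [Metric.mem_closure_iff]
    intro δ hδ
    obtain ⟨a0, ha0, hda⟩ := hdense (δ / 4) (by positivity)
    set ε : ℝ := δ / (4 * (‖a0‖ * ‖ξ‖ + 1)) with hε
    have hpos : 0 < ‖a0‖ * ‖ξ‖ + 1 := by positivity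
    have hε0 : 0 < ε := by positivity
    obtain ⟨b, hb1, hb2, hb3⟩ := core MS h1 hmul hstar Ω ξ hlin a0 ha0 ε hε0
    refine ⟨b Ω, ⟨b, (memN b).2 hb2, hb1, rfl⟩, ?_⟩
    rw [dist_comm, dist_eq_norm]
    have h7 : ε * (‖a0‖ * ‖ξ‖) ≤ δ / 4 := by
      have h8 : ε * (‖a0‖ * ‖ξ‖ + 1) = δ / 4 := by
        rw [hε]; field_simp
      nlinarith
    linarith

end H68R2.BP
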